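import Pool.Agent.H52.LG.Sharp

set_option autoImplicit false
set_option linter.unusedSectionVars false

/-! Lehmer's problem for self-adjoint operators with integral coefficients over arbitrary groups. -/

namespace Pool.Agent.Results.MP_dc0c68_nt.ArbitraryGroups

open Polynomial
open scoped InnerProductSpace

noncomputable section

/-- the logarithm of the Mahler measure of `z ^ 2 - x z + 1` -/
def ell (x : ℝ) : ℝ := (X ^ 2 - C (x : ℂ) * X + 1 : ℂ[X]).logMahlerMeasure

/-- the excess of `|x|` over `2` -/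
def excess (x : ℝ) : ℝ := max (|x| - 2) 0

section ops

variable {H : Type} [NormedAddCommGroup H] [InnerProductSpace ℂ H] [CompleteSpace H]
  {G κ : Type} {k : ℕ}

/-- `T` is self-adjoint, and all its compressions to finitely many of the blocks `{x} × Fin k`,
`x ∈ G × κ`, have a characteristic polynomial with integer coefficients. -/
def Integral (b : HilbertBasis ((G × κ) × Fin k) ℂ H) (T : H →L[ℂ] H) : Prop :=
  IsSelfAdjoint T ∧ ∀ V : Finset (G × κ), ∃ P : ℤ[X], P.map (Int.castRingHom ℂ) =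
    @Matrix.charpoly ℂ _ (V × Fin k) (Classical.decEq _) _
      (Matrix.of fun x y => ⟪b (x.1.1, x.2), T (b (y.1.1, y.2))⟫_ℂ)

/-- `T` commutes with the translations by the elements of `G` -/
def Invariant [Group G] (b : HilbertBasis ((G × κ) × Fin k) ℂ H) (T : H →L[ℂ] H) : Prop :=
  ∀ (g : G) (x y : G × κ) (i j : Fin k),
    ⟪b ((g * x.1, x.2), i), T (b ((g * y.1, y.2), j))⟫_ℂ = ⟪b (x, i), T (b (y, j))⟫_ℂ

/-- the trace over `G` of the operator `f(T)` -/
def tr [Group G] [Fintype κ] (b : HilbertBasis ((G × κ) × Fin k) ℂ H) (f : ℝ → ℝ)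
    (T : H →L[ℂ] H) : ℝ :=
  ∑ a : κ, ∑ i : Fin k, (⟪b ((1, a), i), cfc f T (b ((1, a), i))⟫_ℂ).re

end ops

/-- the polynomial `z ^ n p(z + 1/z)` for a polynomial `p` of degree `n` -/
def reciprocalOf (p : ℂ[X]) : ℂ[X] :=
  ∑ k ∈ Finset.range (p.natDegree + 1), C (p.coeff k) * (X ^ 2 + 1) ^ k * X ^ (p.natDegree - k)

/-- the Mahler measure of `z ^ n p(z + 1/z)` -/
def traceMeasure (p : ℂ[X]) : ℝ := (reciprocalOf p).mahlerMeasure

/-- The matrix `A` of `k × k` blocks is invariant under `G`, and its principal submatrices made of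
blocks have characteristic polynomials with integer coefficients. -/
def IntegralInvariant (G : Type) [Group G] {X : Type} [MulAction G X] {k : ℕ}
    (A : Matrix (X × Fin k) (X × Fin k) ℂ) : Prop :=
  (∀ V : Finset X, ∃ P : ℤ[X], P.map (Int.castRingHom ℂ) =
    @Matrix.charpoly ℂ _ (V × Fin k) (Classical.decEq _) _
      (A.submatrix (fun x => (x.1.1, x.2)) (fun x => (x.1.1, x.2)))) ∧
  ∀ (g : G) (x y : X) (i j : Fin k), A (g • x, i) (g • y, j) = A (x, i) (y, j)

section aux

open Pool.Agent.H52.LG Pool.Agent.W242.IM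

theorem ell_eq (x : ℝ) : ell x = phi x := logMahler_quad x

theorem ell_eq' : ell = phi := funext ell_eq

theorem excess_eq : excess = exc := rfl

variable {H : Type} [NormedAddCommGroup H] [InnerProductSpace ℂ H] [CompleteSpace H]
  {G κ : Type} [Group G] [Fintype κ] {k : ℕ}

theorem tr_mono {b : HilbertBasis ((G × κ) × Fin k) ℂ H} {T : H →L[ℂ] H} (hT : IsSelfAdjoint T)
    (f g : ℝ → ℝ) (hf : Continuous f) (hg : Continuous g) (h : ∀ x ∈ spectrum ℝ T, f x ≤ g x) :
    tr b f T ≤ tr b g T :=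
  Finset.sum_le_sum fun _ _ => Finset.sum_le_sum fun _ _ => form_le hT f g hf hg h _

theorem tr_zero {b : HilbertBasis ((G × κ) × Fin k) ℂ H} {T : H →L[ℂ] H} (hT : IsSelfAdjoint T)
    (f : ℝ → ℝ) (h : ∀ x ∈ spectrum ℝ T, f x = 0) : tr b f T = 0 := by
  have h1 : cfc f T = 0 := by
    rw [cfc_congr (g := fun _ => (0 : ℝ)) h, cfc_const_zero]
  unfold tr
  rw [h1]
  simp

theorem diag_le_tr {b : HilbertBasis ((G × κ) × Fin k) ℂ H} {T : H →L[ℂ] H}
    (hT : IsSelfAdjoint T) (hinv : Invariant b T) (x : (G × κ) × Fin k) :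
    (⟪b x, cfc exc T (b x)⟫_ℂ).re ≤ tr b exc T := by
  obtain ⟨⟨g, a⟩, i⟩ := x
  have hnn : ∀ z, 0 ≤ (⟪b z, cfc exc T (b z)⟫_ℂ).re := fun z => by
    rw [form_eq_sq hT exc continuous_exc exc_nonneg]
    positivity
  let σ : (G × κ) × Fin k ≃ (G × κ) × Fin k :=
    ((Equiv.mulLeft g).prodCongr (Equiv.refl _)).prodCongr (Equiv.refl _)
  have h1 := diag_invariant b (T := T) σ (fun x y => hinv g x.1 y.1 x.2 y.2) exc ((1, a), i)
  have h2 : σ ((1, a), i) = ((g, a), i) := by
    show ((g * 1, a), i) = _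
    rw [mul_one]
  rw [h2] at h1
  rw [h1]
  unfold tr
  calc _ ≤ ∑ i : Fin k, (⟪b ((1, a), i), cfc exc T (b ((1, a), i))⟫_ℂ).re :=
        Finset.single_le_sum (f := fun i : Fin k =>
          (⟪b (((1 : G), a), i), cfc exc T (b ((1, a), i))⟫_ℂ).re) (fun i _ => hnn _)
          (Finset.mem_univ i)
    _ ≤ _ := Finset.single_le_sum (f := fun a : κ => ∑ i : Fin k,
          (⟪b (((1 : G), a), i), cfc exc T (b ((1, a), i))⟫_ℂ).re)
          (fun a _ => Finset.sum_nonneg fun i _ => hnn _) (Finset.mem_univ a)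

theorem tr_mul {b : HilbertBasis ((G × κ) × Fin k) ℂ H} {T : H →L[ℂ] H} (hT : IsSelfAdjoint T)
    (a : ℝ) (f : ℝ → ℝ) (hf : Continuous f) : tr b (fun x => a * f x) T = a * tr b f T := by
  unfold tr
  rw [cfc_const_mul a f T hf.continuousOn]
  simp only [Finset.mul_sum]
  refine Finset.sum_congr rfl fun x _ => Finset.sum_congr rfl fun i _ => ?_
  show (⟪b ((1, x), i), a • (cfc f T (b ((1, x), i)))⟫_ℂ).re = _
  rw [inner_smul_right_eq_smul, Complex.real_smul, Complex.re_ofReal_mul]

/-- the operators -/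
theorem op_part (k : ℕ) : ∃ c : ℝ, 0 < c ∧ ∀ (G : Type) [Group G] (κ : Type) [Fintype κ] (H : Type)
    [NormedAddCommGroup H] [InnerProductSpace ℂ H] [CompleteSpace H]
    (b : HilbertBasis ((G × κ) × Fin k) ℂ H) (T : H →L[ℂ] H), Integral b T → Invariant b T →
      (‖T‖ ≤ 2 ∧ tr b excess T = 0 ∧ tr b ell T = 0) ∨
      (2 < ‖T‖ ∧ 2 * c ≤ tr b excess T ∧ c * (Real.log ‖T‖ / ‖T‖) ≤ tr b ell T) := by
  obtain ⟨c, hc, h⟩ := gap_core k
  refine ⟨c / 2, by positivity, ?_⟩
  intro G _ κ _ H _ _ _ b T hI hinv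
  have hT := hI.1
  by_cases hle : ∀ (U : Finset (G × κ)) (y : U × Fin k → ℂ),
      |qf (mat T b fun x : U × Fin k => (x.1.1, x.2)) y| ≤ 2 * nsq y
  · left
    obtain ⟨h1, h2⟩ := norm_le_two hT fun v => form_bound_of_finite b T hle v
    refine ⟨h2, tr_zero hT _ fun x hx => exc_eq_zero (h1 x hx), tr_zero hT _ fun x hx => ?_⟩
    rw [ell_eq]
    exact phi_eq_zero (h1 x hx)
  · right
    push Not at hle
    have h1 : c ≤ tr b excess T := h H (G × κ) b b.orthonormal T hT hI.2 hle _
      fun x => diag_le_tr hT hinv x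
    have h2 : 2 < ‖T‖ := by
      by_contra hcon
      push Not at hcon
      have : tr b excess T = 0 := tr_zero hT _ fun x hx =>
        exc_eq_zero ((abs_le_of_spec hx).trans hcon)
      linarith
    have h0 : 0 ≤ Real.log ‖T‖ / ‖T‖ :=
      div_nonneg (Real.log_nonneg (by linarith)) (norm_nonneg _)
    refine ⟨h2, by linarith, ?_⟩
    have h3 : tr b (fun x => Real.log ‖T‖ / ‖T‖ / 2 * exc x) T ≤ tr b ell T := by
      rw [ell_eq']
      exact tr_mono hT _ _ (continuous_const.mul continuous_exc) continuous_phi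
        fun x hx => exc_le_phi h2 (abs_le_of_spec hx)
    rw [tr_mul hT _ _ continuous_exc] at h3
    refine le_trans ?_ h3
    have h4 : c ≤ tr b exc T := h1
    nlinarith

theorem charpoly_univ {X : Type} [Fintype X] [DecidableEq X] {k : ℕ}
    (A : Matrix (X × Fin k) (X × Fin k) ℂ)
    (h : ∀ V : Finset X, ∃ P : ℤ[X], P.map (Int.castRingHom ℂ) =
      (A.submatrix (fun x : V × Fin k => (x.1.1, x.2)) (fun x => (x.1.1, x.2))).charpoly) :
    ∃ P : ℤ[X], Pool.Agent.H261R2.CM.toC P = A.charpoly := by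
  obtain ⟨P, hP⟩ := h Finset.univ
  refine ⟨P, ?_⟩
  let e : ↥(Finset.univ : Finset X) × Fin k ≃ X × Fin k :=
    (Equiv.subtypeUnivEquiv fun x => Finset.mem_univ x).prodCongr (Equiv.refl _)
  have h1 := Matrix.charpoly_reindex e.symm A
  have h2 : Matrix.reindex e.symm e.symm A =
      A.submatrix (fun x : ↥(Finset.univ : Finset X) × Fin k => (x.1.1, x.2))
        (fun x => (x.1.1, x.2)) := rfl
  rw [← h1, h2]
  exact hP

/-- the finite case -/
theorem fin_part (k : ℕ) : ∃ c : ℝ, 0 < c ∧ ∀ (G : Type) [Group G] [Fintype G] (X : Type)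
    [Fintype X] [DecidableEq X] [MulAction G X], (∀ (g : G) (x : X), g • x = x → g = 1) →
    ∀ (A : Matrix (X × Fin k) (X × Fin k) ℂ) (hA : A.IsHermitian), IntegralInvariant G A →
      ∀ D : ℝ, (∀ j, |hA.eigenvalues j| ≤ D) → traceMeasure A.charpoly = 1 ∨
        (2 < D ∧ Real.exp (c * Fintype.card G * (Real.log D / D)) ≤ traceMeasure A.charpoly) := by
  obtain ⟨c, hc, h⟩ := finite_gap k
  refine ⟨c / 2, by positivity, ?_⟩
  intro G _ _ X _ _ _ hfree A hA hI D hD
  have hI' : ∀ V : Finset X, ∃ P : ℤ[X], P.map (Int.castRingHom ℂ) =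
      (A.submatrix (fun x : V × Fin k => (x.1.1, x.2)) (fun x => (x.1.1, x.2))).charpoly := by
    intro V
    obtain ⟨P, hP⟩ := hI.1 V
    refine ⟨P, ?_⟩
    rw [hP]
    exact charpoly_inst _ _ _
  have hMM : traceMeasure A.charpoly = Real.exp (mp A.charpoly) := MM_charpoly (charpoly_univ A hI')
  rw [hMM]
  rcases h G X hfree A hA hI' hI.2 with h1 | h1
  · left
    rw [(mp_eq_zero_iff hA).2 h1, Real.exp_zero]
  · right
    have hG : (0 : ℝ) < Fintype.card G := by
      have : 0 < Fintype.card G := Fintype.card_pos_iff.2 ⟨1⟩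
      exact_mod_cast this
    have hD2 : 2 < D := by
      by_contra hcon
      push Not at hcon
      have h2 : ∑ j, exc (hA.eigenvalues j) = 0 :=
        Finset.sum_eq_zero fun j _ => exc_eq_zero ((hD j).trans hcon)
      have : 0 < c * Fintype.card G := mul_pos hc hG
      linarith
    refine ⟨hD2, Real.exp_le_exp.2 ?_⟩
    rw [(mp_charpoly hA).2]
    have h3 : Real.log D / D / 2 * ∑ j, exc (hA.eigenvalues j) ≤ ∑ j, phi (hA.eigenvalues j) := by
      rw [Finset.mul_sum]
      exact Finset.sum_le_sum fun j _ => exc_le_phi hD2 (hD j)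
    refine le_trans ?_ h3
    have h0 : 0 ≤ Real.log D / D := div_nonneg (Real.log_nonneg (by linarith)) (by linarith)
    calc c / 2 * Fintype.card G * (Real.log D / D) = Real.log D / D / 2 * (c * Fintype.card G) := by
          ring
      _ ≤ _ := mul_le_mul_of_nonneg_left h1 (by positivity)

/-- the examples -/
theorem sharp_part (n : ℕ) (hn : 2 ≤ n) : ∃ (G : Type) (_ : Group G) (_ : Fintype G) (H : Type)
    (_ : NormedAddCommGroup H) (_ : InnerProductSpace ℂ H) (_ : CompleteSpace H)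
    (b : HilbertBasis ((G × Unit) × Fin 1) ℂ H) (T : H →L[ℂ] H), Fintype.card G = n + 1 ∧
    Integral b T ∧ Invariant b T ∧ ‖T‖ = n ∧ tr b ell T = ell n / (n + 1) ∧
    ell n / (n + 1) ≤ Real.log n / n := by
  classical
  let G := Multiplicative (ZMod (n + 1))
  let ι := (G × Unit) × Fin 1
  have hcG : Fintype.card G = n + 1 := by
    show Fintype.card (Multiplicative (ZMod (n + 1))) = n + 1
    rw [Fintype.card_multiplicative, ZMod.card]
  have hcι : Fintype.card ι = n + 1 := by
    show Fintype.card ((G × Unit) × Fin 1) = n + 1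
    rw [Fintype.card_prod, Fintype.card_prod, hcG]
    simp
  have hcR : (Fintype.card ι : ℝ) = n + 1 := by
    rw [hcι]
    push_cast
    ring
  have hn' : (2 : ℝ) ≤ n := by exact_mod_cast hn
  have hB : ∀ x : ι, (EuclideanSpace.basisFun ι ℂ).toHilbertBasis x =
      EuclideanSpace.basisFun ι ℂ x := fun x =>
    congrFun (OrthonormalBasis.coe_toHilbertBasis _) x
  refine ⟨G, inferInstance, inferInstance, EuclideanSpace ℂ ι, inferInstance, inferInstance,
    inferInstance, (EuclideanSpace.basisFun ι ℂ).toHilbertBasis, KK ι, hcG, ⟨KK_sa, ?_⟩, ?_, ?_,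
    ?_, ?_⟩
  · intro V
    refine ⟨(Matrix.of fun x y : V × Fin 1 => if x = y then (0 : ℤ) else 1).charpoly, ?_⟩
    rw [← Matrix.charpoly_map]
    have h1 : ∀ (d d' : DecidableEq (V × Fin 1)) (A B : Matrix (V × Fin 1) (V × Fin 1) ℂ), A = B →
        @Matrix.charpoly ℂ _ (V × Fin 1) d _ A = @Matrix.charpoly ℂ _ (V × Fin 1) d' _ B := by
      intro d d' A B hAB
      subst hAB
      exact charpoly_inst _ _ _
    refine h1 _ _ _ _ ?_
    ext x y
    rw [Matrix.map_apply, Matrix.of_apply, Matrix.of_apply, hB, hB, KK_entry]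
    have h2 : ((x.1.1, x.2) = ((y.1.1, y.2) : ι)) ↔ x = y := by
      constructor
      · intro h3
        have h4 := (Prod.mk.injEq _ _ _ _).mp h3
        exact Prod.ext (Subtype.ext h4.1) h4.2
      · rintro rfl
        rfl
    by_cases h3 : x = y
    · rw [if_pos h3, if_pos (h2.2 h3)]
      simp
    · rw [if_neg h3, if_neg fun h4 => h3 (h2.1 h4)]
      simp
  · intro g x y i j
    rw [hB, hB, hB, hB, KK_entry, KK_entry]
    have h2 : (((g * x.1, x.2), i) = (((g * y.1, y.2), j) : ι)) ↔ (x, i) = (y, j) := by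
      constructor
      · intro h3
        have h4 := (Prod.mk.injEq _ _ _ _).mp h3
        have h5 := (Prod.mk.injEq _ _ _ _).mp h4.1
        exact Prod.ext (Prod.ext (mul_left_cancel h5.1) h5.2) h4.2
      · intro h3
        have h4 := (Prod.mk.injEq _ _ _ _).mp h3
        rw [h4.1, h4.2]
    by_cases h3 : (x, i) = (y, j)
    · rw [if_pos h3, if_pos (h2.2 h3)]
    · rw [if_neg h3, if_neg fun h4 => h3 (h2.1 h4)]
  · rw [KK_norm (by rw [hcι]; omega), hcR]
    ring
  · unfold tr
    simp only [hB]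
    rw [Fintype.sum_unique, Fintype.sum_unique]
    rw [KK_cfc ell (by rw [ell_eq]; exact phi_eq_zero (by norm_num)) (by rw [hcR]; positivity), hcR]
    congr 2
    ring
  · rw [ell_eq]
    have h1 : phi n ≤ Real.log n := by
      have := phi_le_posLog (n : ℝ)
      rw [abs_of_nonneg (by linarith), Real.posLog_eq_log (by
        rw [abs_of_nonneg (by linarith)]
        linarith)] at this
      exact this
    have h0 : 0 ≤ Real.log n := Real.log_nonneg (by linarith)
    calc phi n / (n + 1) ≤ Real.log n / (n + 1) := div_le_div_of_nonneg_right h1 (by positivity)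
      _ ≤ Real.log n / n := div_le_div_of_nonneg_left h0 (by linarith) (by linarith)

end aux

/-- **Lehmer's problem for Hermitian operators over arbitrary groups.** (1) For every `k` there is
`c > 0` such that the following holds for all groups `G`, all finite sets `κ` and all integral
invariant self-adjoint operators `T` of `k × k` blocks on `ℓ²(G × κ) ⊗ ℂ ^ k` (for instance all
self-adjoint matrices over `ℤG`, of all sizes, with `k = 1`): either the norm is at most `2` and the
trace of the logarithmic Mahler measure of `z ^ 2 - T z + 1` vanishes, or this trace is at least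
`c log ‖T‖ / ‖T‖` and the trace of `(|T| - 2)₊` is at least `c`. If a finite group `G` acts freely by
automorphisms on a Hermitian matrix `A`, with eigenvalues in `[-D, D]`, then the Mahler measure of
`z ^ n χ_A(z + 1/z)` is `1` or at least `D ^ (c |G| / D)`. (2) The order `log ‖T‖ / ‖T‖` is optimal:
for `n ≥ 2` there are a group of order `n + 1` and an operator of norm `n` (the adjacency matrix of
the complete graph) with trace `ell n / (n + 1)`, at most `log n / n`. -/
theorem result :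
    (∀ k : ℕ, ∃ c : ℝ, 0 < c ∧
      (∀ (G : Type) [Group G] (κ : Type) [Fintype κ] (H : Type) [NormedAddCommGroup H]
        [InnerProductSpace ℂ H] [CompleteSpace H] (b : HilbertBasis ((G × κ) × Fin k) ℂ H)
        (T : H →L[ℂ] H), Integral b T → Invariant b T →
        (‖T‖ ≤ 2 ∧ tr b excess T = 0 ∧ tr b ell T = 0) ∨
        (2 < ‖T‖ ∧ c ≤ tr b excess T ∧ c * (Real.log ‖T‖ / ‖T‖) ≤ tr b ell T)) ∧
      (∀ (G : Type) [Group G] [Fintype G] (X : Type) [Fintype X] [DecidableEq X] [MulAction G X],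
        (∀ (g : G) (x : X), g • x = x → g = 1) →
        ∀ (A : Matrix (X × Fin k) (X × Fin k) ℂ) (hA : A.IsHermitian), IntegralInvariant G A →
        ∀ D : ℝ, (∀ j, |hA.eigenvalues j| ≤ D) → traceMeasure A.charpoly = 1 ∨
          (2 < D ∧ Real.exp (c * Fintype.card G * (Real.log D / D)) ≤ traceMeasure A.charpoly))) ∧
    ∀ n : ℕ, 2 ≤ n → ∃ (G : Type) (_ : Group G) (_ : Fintype G) (H : Type)
      (_ : NormedAddCommGroup H) (_ : InnerProductSpace ℂ H) (_ : CompleteSpace H)
      (b : HilbertBasis ((G × Unit) × Fin 1) ℂ H) (T : H →L[ℂ] H), Fintype.card G = n + 1 ∧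
      Integral b T ∧ Invariant b T ∧ ‖T‖ = n ∧ tr b ell T = ell n / (n + 1) ∧
      ell n / (n + 1) ≤ Real.log n / n := by
  refine ⟨fun k => ?_, sharp_part⟩
  obtain ⟨c₁, h1, h2⟩ := op_part k
  obtain ⟨c₂, h3, h4⟩ := fin_part k
  refine ⟨min c₁ c₂, lt_min h1 h3, ?_, ?_⟩
  · intro G _ κ _ H _ _ _ b T hI hinv
    rcases h2 G κ H b T hI hinv with h5 | ⟨h5, h6, h7⟩
    · exact Or.inl h5
    · have h0 : 0 ≤ Real.log ‖T‖ / ‖T‖ :=
        div_nonneg (Real.log_nonneg (by linarith)) (norm_nonneg _)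
      refine Or.inr ⟨h5, ?_, ?_⟩
      · linarith [min_le_left c₁ c₂]
      · exact (mul_le_mul_of_nonneg_right (min_le_left _ _) h0).trans h7
  · intro G _ _ X _ _ _ hfree A hA hI D hD
    rcases h4 G X hfree A hA hI D hD with h5 | ⟨h5, h6⟩
    · exact Or.inl h5
    · refine Or.inr ⟨h5, le_trans (Real.exp_le_exp.2 ?_) h6⟩
      have h0 : 0 ≤ Real.log D / D := div_nonneg (Real.log_nonneg (by linarith)) (by linarith)
      exact mul_le_mul_of_nonneg_right
        (mul_le_mul_of_nonneg_right (min_le_right _ _) (Nat.cast_nonneg _)) h0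

end

end Pool.Agent.Results.MP_dc0c68_nt.ArbitraryGroups
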