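import Mathlib
import Pool.Agent.H10.LE.Rec
import Pool.Graph.R_seed8.TH53.SL5

/-!
# Lehmer's problem for numbers with a power, or a relative norm, of degree at most three over an abelian field

(1) Let `E = ℚ(a)` be a number field, `F` a subfield, `c` the norm of `a` to `F`, not a root of unity and either of
degree at most three over some cyclotomic field, or with a minimal polynomial over `ℤ` which is not reciprocal.
Then every nonzero integer polynomial `f` with `f(a) = 0` has `M(f) > 1.21 > M(L)`.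

(2) In particular this holds for `α ≠ 0`, not a root of unity, if some power `α ^ n`, `n ≥ 1`, has degree at most
three over some cyclotomic field (take `E = ℚ(α)`, `F = ℚ(α ^ n)`).

Method. `M(c) ≤ M(a)`: the conjugates of `c` are products over disjoint sets of conjugates of `a`
(`Pool.Agent.H10.LE.M_norm`); and the theorem of the library for numbers of degree at most three over an abelian
field, applied to `c`.
-/

set_option autoImplicit false

namespace Pool.Agent.Results.MP_dc0c68_nt.NormsOfSmallDegree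

open Polynomial

/-- The Mahler measure of an integer polynomial. -/
noncomputable def M (f : ℤ[X]) : ℝ := (f.map (Int.castRingHom ℂ)).mahlerMeasure

/-- Lehmer's polynomial. -/
noncomputable def L : ℤ[X] := X ^ 10 + X ^ 9 - X ^ 7 - X ^ 6 - X ^ 5 - X ^ 4 - X ^ 3 + X + 1

/-- `α` is a zero of a nonzero polynomial of degree at most `d` with coefficients in the cyclotomic
field generated by the `N`-th roots of unity, for some `N`. -/
def DegreeOverAbelianLe (d : ℕ) (α : ℂ) : Prop :=
  ∃ N : ℕ, 0 < N ∧ ∃ g : ℂ[X], g ≠ 0 ∧ g.natDegree ≤ d ∧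
    (∀ i, g.coeff i ∈ IntermediateField.adjoin ℚ {z : ℂ | z ^ N = 1}) ∧ g.eval α = 0

theorem result :
    (∀ (E F : Type) [Field E] [Field F] [NumberField E] [NumberField F] [Algebra F E]
      (ι : E →+* ℂ) (a : E), IntermediateField.adjoin ℚ {a} = ⊤ → a ≠ 0 →
      (∀ n : ℕ, 0 < n → (Algebra.norm F a) ^ n ≠ 1) →
      (DegreeOverAbelianLe 3 (ι (algebraMap F E (Algebra.norm F a))) ∨
        (minpoly ℤ (Algebra.norm F a)).reverse ≠ minpoly ℤ (Algebra.norm F a)) →
      ∀ f : ℤ[X], f ≠ 0 → aeval a f = 0 → 1.21 < M f ∧ M L < M f) ∧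
    (∀ (α : ℂ), α ≠ 0 → (∀ n : ℕ, 0 < n → α ^ n ≠ 1) →
      (∃ n : ℕ, 0 < n ∧ DegreeOverAbelianLe 3 (α ^ n)) →
      ∀ f : ℤ[X], f ≠ 0 → aeval α f = 0 → 1.21 < M f ∧ M L < M f) := by
  have key : ∀ f : ℤ[X], 1.21 < M f → 1.21 < M f ∧ M L < M f := by
    intro f h1
    refine ⟨h1, ?_⟩
    have h2 : M L < 1189 / 1000 := Pool.Agent.TH53.SL.lehmer_lt
    norm_num at h1 ⊢
    linarith
  constructor
  · intro E F _ _ _ _ _ ι a ha ha0 hroot hdeg f hf hfa
    apply key
    have h6 : aeval (ι a) f = 0 := by
      have h3 := congrArg ι hfa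
      rw [map_zero, aeval_def, hom_eval₂] at h3
      rw [aeval_def]
      have h5 : ι.comp (algebraMap ℤ E) = algebraMap ℤ ℂ := RingHom.ext_int _ _
      rw [h5] at h3
      exact h3
    rcases hdeg with hdeg | hrec
    · exact Pool.Agent.H10.LE.norm_case E F ι a ha ha0 hf h6 hroot hdeg
    · exact Pool.Agent.H10.LE.rec_case E F ι a ha ha0 hf h6 hroot hrec
  · rintro α h0 hroot ⟨n, hn, hdeg⟩ f hf hα
    apply key
    exact Pool.Agent.H10.LE.power_case hf hα h0 hroot hn hdeg

end Pool.Agent.Results.MP_dc0c68_nt.NormsOfSmallDegree
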