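import Mathlib
import Pool.Agent.H10.LE.Orth

/-!
# Lehmer's problem: it is enough to consider numbers all of whose relative norms are roots of unity

Let `f` be an integer polynomial with `1 < M(f) ≤ 1.21` (for example a counterexample to Lehmer's problem). Then
there is an algebraic integer `a` whose minimal polynomial `p` has `1 < M(p) ≤ M(f)` and `deg p ≤ deg f`, is
reciprocal, and such that with `E = ℚ(a)`

* the norm of `a` to every subfield `F ≠ E` is a root of unity;
* no power `a ^ n`, `n ≥ 1`, is a product of elements of proper subfields of `E` (in particular `ℚ(a ^ n) = ℚ(a)`),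
  and no power has degree at most three over a cyclotomic field;
* `E` has exactly one automorphism of order two, and it maps `a` to `a⁻¹`;
* every group of automorphisms of `E` of order `p q`, `p` and `q` prime, is cyclic, and no group of automorphisms
  has a nontrivial partition into subgroups;
* `E` is not Galois over `ℚ`, and neither totally real nor a CM field: complex conjugation is not induced by an
  automorphism of `E`.

Method. `M(N_{E/F}(a)) ≤ M(a)` (`Pool.Agent.H10.LE.M_norm`), descent on the degree, a weak form of Smyth's theorem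
and a theorem of the library on numbers of degree at most three over a cyclotomic field. If the norm of `a` to `F` is
a root of unity then the vector of the `log |σ(a)|` is orthogonal to the one of every nonzero element of `F`; so it
cannot be a combination of vectors of elements of proper subfields, as it is not zero. If `g` is an automorphism
of order two then the norm `a g(a)` is a root of unity, so `g = τ`, `τ(a) = a⁻¹`. If a group `G` of automorphisms is
the union of subgroups `H₁, …, H_k` with pairwise trivial intersection then the product of the norms of `a` for the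
groups `H_i` is `a ^ (k - 1)` times the norm for `G`; so `a` would be a root of unity. A noncyclic group of order
`p q` has such a partition. If complex conjugation is induced by an automorphism `g` then `g = 1` or `g = τ`: all
conjugates of `a` are real, or all are on the unit circle. If `E` is Galois then it is induced by `1` or `τ` again
(uniqueness of `τ`).
-/

set_option autoImplicit false

namespace Pool.Agent.Results.MP_dc0c68_nt.TorsionNorms

open Polynomial

/-- The Mahler measure of an integer polynomial. -/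
noncomputable def M (f : ℤ[X]) : ℝ := (f.map (Int.castRingHom ℂ)).mahlerMeasure

/-- `α` is a zero of a nonzero polynomial of degree at most `d` with coefficients in the cyclotomic
field generated by the `N`-th roots of unity, for some `N`. -/
def DegreeOverAbelianLe (d : ℕ) (α : ℂ) : Prop :=
  ∃ N : ℕ, 0 < N ∧ ∃ g : ℂ[X], g ≠ 0 ∧ g.natDegree ≤ d ∧
    (∀ i, g.coeff i ∈ IntermediateField.adjoin ℚ {z : ℂ | z ^ N = 1}) ∧ g.eval α = 0

/-- The conditions of the reduction on the automorphisms of the number field `E` (and on `a`): there is exactly one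
automorphism of order two, and it maps `a` to `a⁻¹`; groups of automorphisms of order `p q`, `p` and `q` prime, are
cyclic; no group `G` of automorphisms has a nontrivial partition, that is, is the union of `k ≥ 2` nontrivial
subgroups with pairwise trivial intersection; `E` is not Galois over `ℚ`; complex conjugation is not induced by an
automorphism. -/
def AutomorphismConditions {E : Type} [Field E] [NumberField E] (a : E) : Prop :=
  (∃ τ : E ≃ₐ[ℚ] E, τ a = a⁻¹ ∧ τ ≠ 1 ∧ ∀ g : E ≃ₐ[ℚ] E, g ≠ 1 → g * g = 1 → g = τ) ∧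
  (∀ p q : ℕ, p.Prime → q.Prime → ∀ G : Subgroup (E ≃ₐ[ℚ] E), Nat.card G = p * q → IsCyclic G) ∧
  (∀ (k : ℕ) (H : Fin k → Subgroup (E ≃ₐ[ℚ] E)), 2 ≤ k → (∀ i, H i ≠ ⊥) →
    (∀ i j, i ≠ j → H i ⊓ H j = ⊥) → ∀ G : Subgroup (E ≃ₐ[ℚ] E),
      (G : Set (E ≃ₐ[ℚ] E)) ≠ ⋃ i, (H i : Set (E ≃ₐ[ℚ] E))) ∧
  ¬ IsGalois ℚ E ∧
  ∀ g : E ≃ₐ[ℚ] E, ∃ ι : E →+* ℂ, (starRingEnd ℂ) (ι a) ≠ ι (g a)

theorem result (f : ℤ[X]) (h1 : 1 < M f) (h2 : M f ≤ 1.21) :
    ∃ (E : Type) (_ : Field E) (_ : NumberField E) (a : E),
      IntermediateField.adjoin ℚ {a} = ⊤ ∧ IsIntegral ℤ a ∧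
      (minpoly ℤ a).natDegree ≤ f.natDegree ∧ 1 < M (minpoly ℤ a) ∧ M (minpoly ℤ a) ≤ M f ∧
      (minpoly ℤ a).reverse = minpoly ℤ a ∧
      (∀ F : IntermediateField ℚ E, F ≠ ⊤ → ∃ n : ℕ, 0 < n ∧ (Algebra.norm F a) ^ n = 1) ∧
      (∀ (k : ℕ) (F : Fin k → IntermediateField ℚ E) (u : Fin k → E), (∀ i, F i ≠ ⊤) →
        (∀ i, u i ∈ F i) → ∀ n : ℕ, 0 < n → a ^ n ≠ ∏ i, u i) ∧
      (∀ n : ℕ, 0 < n → IntermediateField.adjoin ℚ {a ^ n} = ⊤) ∧
      (∀ n : ℕ, 0 < n → ∀ ι : E →+* ℂ, ¬ DegreeOverAbelianLe 3 (ι a ^ n)) ∧
      AutomorphismConditions a := by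
  obtain ⟨E, i1, i2, a, g1, g2, g3, g4, g5, g6, g7, g8, g9, g10, g11⟩ :=
    Pool.Agent.H10.LE.reduction2 (f := f) h1 h2
  exact ⟨E, i1, i2, a, g1, g2, g4, g5, g6, g3, g7,
    fun k F u hF hu n hn => Pool.Agent.H10.LE.no_prod g2 g5 g7 F hF u hu hn,
    fun n hn => (g8 n hn).1, fun n hn => (g8 n hn).2,
    g9, fun p q hp hq G hG => Pool.Agent.H10.LE.pq_cyclic
      (Pool.Agent.H10.LE.not_torsion_of_MM g2 g5) g7 hp hq G hG,
    fun k H hk hne hdis G => Pool.Agent.H10.LE.no_partition
      (Pool.Agent.H10.LE.not_torsion_of_MM g2 g5) g7 hk H hne hdis G, g10, g11⟩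

end Pool.Agent.Results.MP_dc0c68_nt.TorsionNorms
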